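import Pool.Agent.R686.CG.Fin

/-! MP_eff4ce_al, Q1 (full positive answer): there are finite star-free graphs, each containing a
cycle, of rank at most 8 and of girth tending to infinity. -/

namespace Pool.Agent.Results.MP_eff4ce_al.BoundedRankUnboundedGirth

/-- The commuting graph of a semigroup: vertices are the non-central elements, two distinct vertices
are adjacent exactly when they commute. -/
def commGraph (S : Type) [Semigroup S] : SimpleGraph {s : S // ¬ ∀ t : S, s * t = t * s} where
  Adj s t := s ≠ t ∧ (s : S) * (t : S) = (t : S) * (s : S)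
  symm := ⟨fun _ _ h => ⟨h.1.symm, h.2.symm⟩⟩
  loopless := ⟨fun _ h => h.1 rfl⟩

/-- A star is a vertex adjacent to every other vertex; a graph is star-free if it has no star. -/
def StarFree {V : Type} (G : SimpleGraph V) : Prop := ∀ v : V, ¬ ∀ u : V, u ≠ v → G.Adj v u

/-- `G` is (isomorphic to) the commuting graph of a semigroup generated by a set of `n` elements. -/
def GeneratedBy {V : Type} (G : SimpleGraph V) (n : ℕ) : Prop :=
  ∃ (S : Type) (_ : Semigroup S) (A : Finset S), A.card = n ∧
    Subsemigroup.closure (A : Set S) = ⊤ ∧ Nonempty (commGraph S ≃g G)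

/-- The rank of a graph: the least number of generators of a semigroup whose commuting graph is
isomorphic to the graph (`⊤` if there is no such finitely generated semigroup). -/
noncomputable def graphRank {V : Type} (G : SimpleGraph V) : ℕ∞ :=
  sInf {r : ℕ∞ | ∃ n : ℕ, r = n ∧ GeneratedBy G n}

open R686CG

theorem aux_starFree (m : ℕ) (F : Bool → List (Fin 4) → ℕ) : StarFree (CG m F) := by
  intro v hv
  obtain ⟨t, ht⟩ := no_center m F v
  have hne : t ≠ v := by rintro rfl; exact ht rfl
  exact ht (hv t hne).2

theorem aux_rank (m : ℕ) (F : Bool → List (Fin 4) → ℕ) : graphRank (CG m F) ≤ 8 := by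
  classical
  obtain ⟨hfin, hcard⟩ := gens_card m F
  have hsub : gens m F ⊆ (SS m F : Set M) := Subsemigroup.subset_closure
  let B : Set (SS m F) := Subtype.val ⁻¹' (gens m F)
  have hB : B.Finite := hfin.preimage (Subtype.val_injective.injOn)
  have himg : Subtype.val '' B = gens m F := by
    ext x
    constructor
    · rintro ⟨y, hy, rfl⟩
      exact hy
    · intro hx
      exact ⟨⟨x, hsub hx⟩, hx, rfl⟩
  have hBc : B.ncard ≤ 8 := by
    rw [← Set.ncard_image_of_injective B Subtype.val_injective, himg]
    exact hcard
  have hg : GeneratedBy (CG m F) hB.toFinset.card := by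
    refine ⟨SS m F, inferInstance, hB.toFinset, rfl, ?_, ?_⟩
    · rw [Set.Finite.coe_toFinset]
      exact Subsemigroup.closure_closure_coe_preimage
    · have hc : ∀ s : SS m F, ¬ ∀ t : SS m F, s * t = t * s := by
        intro s hs
        obtain ⟨t, ht⟩ := no_center m F s
        exact ht (hs t)
      refine ⟨⟨Equiv.subtypeUnivEquiv hc, ?_⟩⟩
      intro a b
      show (CG m F).Adj (a : SS m F) (b : SS m F) ↔ _
      constructor
      · rintro ⟨h1, h2⟩
        exact ⟨fun h => h1 (congrArg Subtype.val h), h2⟩
      · rintro ⟨h1, h2⟩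
        exact ⟨fun h => h1 (Subtype.ext h), h2⟩
  have h1 : graphRank (CG m F) ≤ (hB.toFinset.card : ℕ∞) := sInf_le ⟨_, rfl, hg⟩
  refine h1.trans ?_
  rw [← Set.ncard_eq_toFinset_card B hB]
  exact_mod_cast hBc

/-- There are finite star-free graphs, each containing a cycle, of rank at most `8` and with girths
tending to infinity. -/
theorem result : ∃ (V : ℕ → Type) (_ : ∀ k, Fintype (V k)) (G : ∀ k, SimpleGraph (V k)),
    (∀ k, StarFree (G k) ∧ ¬ (G k).IsAcyclic ∧ graphRank (G k) ≤ 8) ∧
    Filter.Tendsto (fun k => (G k).girth) Filter.atTop Filter.atTop := by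
  choose m F h1 h2 using final
  refine ⟨fun k => SS (m k) (F k), fun k => (SS_finite (m k) (F k)).fintype, fun k => CG (m k) (F k),
    fun k => ⟨aux_starFree _ _, h1 k, aux_rank _ _⟩, ?_⟩
  exact Filter.tendsto_atTop_mono h2 Filter.tendsto_id

end Pool.Agent.Results.MP_eff4ce_al.BoundedRankUnboundedGirth
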